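import Mathlib
import Pool.Agent.MP_b12348_gt.Geometry

open Set

namespace Pool.Agent.Results.MP_b12348_gt.NoFactorisation

open Pool.Agent.MP_b12348_gt

variable {n : ℕ}

/-! ### Affine forms and convex combinations -/

theorem forms_map_sum {E : Type*} [AddCommGroup E] [Module ℝ E] {C : Set E} (hC : Convex ℝ C)
    {ω : C → ℝ} (hω : ω ∈ Forms C) {κ : Type*} (s : Finset κ) (w : κ → ℝ) (x : κ → C)
    (hw : ∀ k ∈ s, 0 ≤ w k) (h1 : ∑ k ∈ s, w k = 1) (hmem : ∑ k ∈ s, w k • (x k : E) ∈ C) :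
    ω ⟨∑ k ∈ s, w k • (x k : E), hmem⟩ = ∑ k ∈ s, w k * ω (x k) := by
  classical
  set ext : E → ℝ := fun y => if h : y ∈ C then ω ⟨y, h⟩ else 0 with hext
  have hval : ∀ y : C, ext y = ω y := fun y => by
    simp only [hext, dif_pos y.2]
  have key : ∀ x ∈ C, ∀ y ∈ C, ∀ a b : ℝ, 0 ≤ a → 0 ≤ b → a + b = 1 →
      ext (a • x + b • y) = a * ext x + b * ext y := by
    intro x hx y hy a b ha hb hab
    have hb' : b = 1 - a := by linarith
    subst hb'
    have hm : a • x + (1 - a) • y ∈ C := hC hx hy ha hb hab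
    have := hω.2 ⟨x, hx⟩ ⟨y, hy⟩ a ha (by linarith) hm
    rw [← hval ⟨x, hx⟩, ← hval ⟨y, hy⟩] at this
    rw [← this]
    simp only [hext, dif_pos hm]
  have hcv : ConvexOn ℝ C ext := ⟨hC, fun x hx y hy a b ha hb hab => by
    rw [key x hx y hy a b ha hb hab]
    rfl⟩
  have hcc : ConcaveOn ℝ C ext := ⟨hC, fun x hx y hy a b ha hb hab => by
    rw [key x hx y hy a b ha hb hab]
    rfl⟩
  have h2 := hcv.map_sum_le (p := fun k => (x k : E)) hw h1 (fun k _ => (x k).2)
  have h3 := hcc.le_map_sum (p := fun k => (x k : E)) hw h1 (fun k _ => (x k).2)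
  have h4 : ext (∑ k ∈ s, w k • (x k : E)) = ω ⟨∑ k ∈ s, w k • (x k : E), hmem⟩ := by
    simp only [hext, dif_pos hmem]
  rw [← h4]
  apply le_antisymm
  · refine le_trans h2 (le_of_eq ?_)
    apply Finset.sum_congr rfl
    intro k _
    rw [hval]
    rfl
  · refine le_trans (le_of_eq ?_) h3
    apply Finset.sum_congr rfl
    intro k _
    rw [hval]
    rfl

/-! ### The map `f` -/

/-- The simplex `T`. -/
def TT (n : ℕ) : Set (Fin n ⊕ Fin n → ℝ) := stdSimplex ℝ (Fin n ⊕ Fin n)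

/-- The domain of `f`. -/
def DD (n : ℕ) : Set (Fin n ⊕ Fin n → ℝ) :=
  {x | (∀ k, 0 ≤ x k) ∧ ∑ i, x (Sum.inl i) = 1 / 2 ∧ ∑ i, x (Sum.inr i) = 1 / 2}

/-- The map `f`. -/
def ff (x : Fin n ⊕ Fin n → ℝ) : Fin n → ℝ := fun i => 2 * (x (Sum.inl i) - x (Sum.inr i))

theorem DD_subset : DD n ⊆ TT n := by
  rintro x ⟨h0, h1, h2⟩
  refine ⟨h0, ?_⟩
  rw [Fintype.sum_sum_type, h1, h2]
  norm_num

theorem DD_combo {x y : Fin n ⊕ Fin n → ℝ} (hx : x ∈ DD n) (hy : y ∈ DD n) {a b : ℝ}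
    (ha : 0 ≤ a) (hb : 0 ≤ b) (hab : a + b = 1) : a • x + b • y ∈ DD n := by
  refine ⟨fun k => ?_, ?_, ?_⟩
  · exact add_nonneg (mul_nonneg ha (hx.1 k)) (mul_nonneg hb (hy.1 k))
  · simp only [Pi.add_apply, Pi.smul_apply, smul_eq_mul, Finset.sum_add_distrib,
      ← Finset.mul_sum, hx.2.1, hy.2.1]
    linarith
  · simp only [Pi.add_apply, Pi.smul_apply, smul_eq_mul, Finset.sum_add_distrib,
      ← Finset.mul_sum, hx.2.2, hy.2.2]
    linarith

theorem ff_combo (x y : Fin n ⊕ Fin n → ℝ) (a b : ℝ) :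
    ff (a • x + b • y) = a • ff x + b • ff y := by
  ext i
  simp only [ff, Pi.add_apply, Pi.smul_apply, smul_eq_mul]
  ring

theorem gen_mem (hn : 2 ≤ n) (i j : Fin n) : gen i j ∈ CC n := by
  by_cases hij : i = j
  · subst hij
    have h0 : gen i i = (1 / 2 : ℝ) • gen (⟨0, by omega⟩ : Fin n) ⟨1, by omega⟩ +
        (1 / 2 : ℝ) • gen (⟨1, by omega⟩ : Fin n) ⟨0, by omega⟩ := by
      simp [gen]
      rw [← smul_add]
      simp
    rw [h0]
    apply convex_convexHull ℝ (gens n) _ _ (by norm_num) (by norm_num) (by norm_num)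
    · exact subset_convexHull ℝ _ ⟨_, _, by simp [Fin.ext_iff], rfl⟩
    · exact subset_convexHull ℝ _ ⟨_, _, by simp [Fin.ext_iff], rfl⟩
  · exact subset_convexHull ℝ _ ⟨i, j, hij, rfl⟩

theorem weights_sum {x : Fin n ⊕ Fin n → ℝ} (hx : x ∈ DD n) :
    ∑ p : Fin n × Fin n, 4 * x (Sum.inl p.1) * x (Sum.inr p.2) = 1 := by
  rw [Fintype.sum_prod_type]
  simp only [← Finset.mul_sum, hx.2.2, ← Finset.sum_mul]
  rw [hx.2.1]
  norm_num

theorem ff_eq_sum {x : Fin n ⊕ Fin n → ℝ} (hx : x ∈ DD n) :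
    ∑ p : Fin n × Fin n, (4 * x (Sum.inl p.1) * x (Sum.inr p.2)) • gen p.1 p.2 = ff x := by
  ext k
  rw [Finset.sum_apply, Fintype.sum_prod_type]
  simp only [Pi.smul_apply, smul_eq_mul, gen_apply, mul_sub, mul_ite, mul_one, mul_zero,
    Finset.sum_sub_distrib, ff]
  have e1 : ∑ i : Fin n, ∑ j : Fin n, (if k = i then 4 * x (Sum.inl i) * x (Sum.inr j) else 0)
      = 2 * x (Sum.inl k) := by
    rw [Finset.sum_eq_single k]
    · simp only [if_true, ← Finset.mul_sum, hx.2.2]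
      ring
    · intro b _ hb
      simp [hb.symm]
    · simp
  have e2 : ∑ i : Fin n, ∑ j : Fin n, (if k = j then 4 * x (Sum.inl i) * x (Sum.inr j) else 0)
      = 2 * x (Sum.inr k) := by
    simp only [Finset.sum_ite_eq, Finset.mem_univ, if_true]
    rw [← Finset.sum_mul, ← Finset.mul_sum, hx.2.1]
    ring
  rw [e1, e2]

theorem ff_mem (hn : 2 ≤ n) {x : Fin n ⊕ Fin n → ℝ} (hx : x ∈ DD n) : ff x ∈ CC n := by
  rw [← ff_eq_sum hx]
  apply (convex_convexHull ℝ (gens n)).sum_mem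
  · intro p _
    exact mul_nonneg (mul_nonneg (by norm_num) (hx.1 _)) (hx.1 _)
  · exact weights_sum hx
  · intro p _
    exact gen_mem hn _ _

theorem ff_onto (hn : 2 ≤ n) : ff '' DD n = CC n := by
  apply Subset.antisymm
  · rintro _ ⟨x, hx, rfl⟩
    exact ff_mem hn hx
  · apply convexHull_min
    · rintro _ ⟨i, j, hij, rfl⟩
      refine ⟨Sum.elim (fun k => if k = i then 1 / 2 else 0) (fun k => if k = j then 1 / 2 else 0),
        ⟨?_, ?_, ?_⟩, ?_⟩
      · rintro (k | k)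
        · simp only [Sum.elim_inl]
          split_ifs <;> norm_num
        · simp only [Sum.elim_inr]
          split_ifs <;> norm_num
      · simp
      · simp
      · ext k
        simp only [ff, Sum.elim_inl, Sum.elim_inr, gen_apply]
        split_ifs <;> norm_num
    · rintro _ ⟨x, hx, rfl⟩ _ ⟨y, hy, rfl⟩ a b ha hb hab
      exact ⟨a • x + b • y, DD_combo hx hy ha hb hab, ff_combo x y a b⟩

/-- The partial map `f : T ⇀ C`. -/
def fP (hn : 2 ≤ n) : PartialAffine (TT n) (CC n) where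
  dom := DD n
  toFun := ff
  dom_subset := DD_subset
  maps_to _ ha := ff_mem hn ha
  combo_mem _ ha _ hb _ h0 h1 := DD_combo ha hb h0 (by linarith) (by ring)
  map_combo a _ b _ t _ _ := ff_combo a b t (1 - t)

/-! ### The map `g` -/

/-- A section of `f`. -/
noncomputable def sec (hn : 2 ≤ n) (x : CC n) : Fin n ⊕ Fin n → ℝ :=
  ((ff_onto hn).symm.subset x.2).choose

theorem sec_mem (hn : 2 ≤ n) (x : CC n) : sec hn x ∈ DD n :=
  ((ff_onto hn).symm.subset x.2).choose_spec.1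

theorem ff_sec (hn : 2 ≤ n) (x : CC n) : ff (sec hn x) = x :=
  ((ff_onto hn).symm.subset x.2).choose_spec.2

/-- The domain of `g`: forms on `T` which on `DD n` factor through `f`. -/
def EE (n : ℕ) : Set (TT n → ℝ) :=
  {ω | ω ∈ Forms (TT n) ∧ ∀ (x y : Fin n ⊕ Fin n → ℝ) (hx : x ∈ DD n) (hy : y ∈ DD n),
    ff x = ff y → ω ⟨x, DD_subset hx⟩ = ω ⟨y, DD_subset hy⟩}

/-- The map `g`. -/
noncomputable def gg (hn : 2 ≤ n) (ω : TT n → ℝ) : CC n → ℝ :=
  fun x => ω ⟨sec hn x, DD_subset (sec_mem hn x)⟩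

theorem gg_mem (hn : 2 ≤ n) {ω : TT n → ℝ} (hω : ω ∈ EE n) : gg hn ω ∈ Forms (CC n) := by
  refine ⟨fun a => hω.1.1 _, ?_⟩
  intro a b t h0 h1 h
  have h2 : t • sec hn a + (1 - t) • sec hn b ∈ DD n :=
    DD_combo (sec_mem hn a) (sec_mem hn b) h0 (by linarith) (by ring)
  have h3 := hω.2 (sec hn ⟨t • (a : Fin n → ℝ) + (1 - t) • (b : Fin n → ℝ), h⟩)
    (t • sec hn a + (1 - t) • sec hn b) (sec_mem hn _) h2 (by
      rw [ff_sec, ff_combo, ff_sec, ff_sec])
  have h4 := hω.1.2 ⟨sec hn a, DD_subset (sec_mem hn a)⟩ ⟨sec hn b, DD_subset (sec_mem hn b)⟩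
    t h0 h1 (DD_subset h2)
  show ω ⟨sec hn _, _⟩ = t * ω ⟨sec hn a, _⟩ + (1 - t) * ω ⟨sec hn b, _⟩
  rw [h3, h4]

theorem EE_combo {ω ω' : TT n → ℝ} (hω : ω ∈ EE n) (hω' : ω' ∈ EE n) {t : ℝ} (h0 : 0 ≤ t)
    (h1 : t ≤ 1) : t • ω + (1 - t) • ω' ∈ EE n := by
  refine ⟨⟨fun a => ?_, ?_⟩, ?_⟩
  · have h2 := hω.1.1 a
    have h3 := hω'.1.1 a
    have h4 : 0 ≤ 1 - t := by linarith
    simp only [Pi.add_apply, Pi.smul_apply, smul_eq_mul]
    constructor
    · exact add_nonneg (mul_nonneg h0 h2.1) (mul_nonneg h4 h3.1)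
    · nlinarith
  · intro a b s hs0 hs1 h
    simp only [Pi.add_apply, Pi.smul_apply, smul_eq_mul]
    rw [hω.1.2 a b s hs0 hs1 h, hω'.1.2 a b s hs0 hs1 h]
    ring
  · intro x y hx hy hxy
    simp only [Pi.add_apply, Pi.smul_apply, smul_eq_mul]
    rw [hω.2 x y hx hy hxy, hω'.2 x y hx hy hxy]

/-- The partial map `g : ΩT ⇀ ΩC`. -/
noncomputable def gP (hn : 2 ≤ n) : PartialAffine (Forms (TT n)) (Forms (CC n)) where
  dom := EE n
  toFun := gg hn
  dom_subset _ h := h.1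
  maps_to _ h := gg_mem hn h
  combo_mem _ ha _ hb _ h0 h1 := EE_combo ha hb h0 h1
  map_combo _ _ _ _ _ _ _ := rfl

theorem gg_compat (hn : 2 ≤ n) {ω : TT n → ℝ} (hω : ω ∈ EE n) {a : Fin n ⊕ Fin n → ℝ}
    (ha : a ∈ DD n) : gg hn ω ⟨ff a, ff_mem hn ha⟩ = ω ⟨a, DD_subset ha⟩ :=
  hω.2 _ _ (sec_mem hn _) ha (ff_sec hn _)

/-! ### The map `g` is onto -/

theorem exchange (hn : 2 ≤ n) {η : CC n → ℝ} (hη : η ∈ Forms (CC n)) (i j k l : Fin n) :
    η ⟨gen i j, gen_mem hn i j⟩ + η ⟨gen k l, gen_mem hn k l⟩ =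
      η ⟨gen i l, gen_mem hn i l⟩ + η ⟨gen k j, gen_mem hn k j⟩ := by
  have hc := convex_convexHull ℝ (gens n)
  have m1 : (1 / 2 : ℝ) • gen i j + (1 - 1 / 2 : ℝ) • gen k l ∈ CC n :=
    hc (gen_mem hn i j) (gen_mem hn k l) (by norm_num) (by norm_num) (by norm_num)
  have m2 : (1 / 2 : ℝ) • gen i l + (1 - 1 / 2 : ℝ) • gen k j ∈ CC n :=
    hc (gen_mem hn i l) (gen_mem hn k j) (by norm_num) (by norm_num) (by norm_num)
  have h1 := hη.2 ⟨gen i j, gen_mem hn i j⟩ ⟨gen k l, gen_mem hn k l⟩ (1 / 2) (by norm_num)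
    (by norm_num) m1
  have h2 := hη.2 ⟨gen i l, gen_mem hn i l⟩ ⟨gen k j, gen_mem hn k j⟩ (1 / 2) (by norm_num)
    (by norm_num) m2
  have h3 : (1 / 2 : ℝ) • gen i j + (1 - 1 / 2 : ℝ) • gen k l =
      (1 / 2 : ℝ) • gen i l + (1 - 1 / 2 : ℝ) • gen k j := by
    ext m
    simp only [Pi.add_apply, Pi.smul_apply, smul_eq_mul, gen_apply]
    ring
  have h4 : (⟨(1 / 2 : ℝ) • gen i j + (1 - 1 / 2 : ℝ) • gen k l, m1⟩ : CC n) =
      ⟨(1 / 2 : ℝ) • gen i l + (1 - 1 / 2 : ℝ) • gen k j, m2⟩ := Subtype.ext h3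
  rw [h4, h2] at h1
  linarith

theorem exists_uv (hn : 2 ≤ n) {η : CC n → ℝ} (hη : η ∈ Forms (CC n)) :
    ∃ u v : Fin n → ℝ, (∀ i, 0 ≤ u i ∧ u i ≤ 1) ∧ (∀ j, 0 ≤ v j ∧ v j ≤ 1) ∧
      ∀ i j, u i + v j = 2 * η ⟨gen i j, gen_mem hn i j⟩ := by
  set b : Fin n → Fin n → ℝ := fun i j => η ⟨gen i j, gen_mem hn i j⟩ with hb
  have hex : ∀ i j k l, b i j + b k l = b i l + b k j := exchange hn hη
  have h01 : ∀ i j, 0 ≤ b i j ∧ b i j ≤ 1 := fun i j => hη.1 _
  have hdiag : ∀ i j, b i i = b j j := by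
    intro i j
    simp only [hb]
    congr 1
    apply Subtype.ext
    simp [gen]
  have : Nonempty (Fin n) := ⟨⟨0, by omega⟩⟩
  obtain ⟨z, hz⟩ := Finite.exists_max (fun i => b i ⟨0, by omega⟩)
  set o : Fin n := ⟨0, by omega⟩ with ho
  set c := b z z with hc
  have hiz : ∀ i, b i z ≤ c := by
    intro i
    have h1 := hex i z z o
    have h2 : b i o ≤ b z o := hz i
    linarith
  have hsum : ∀ i, b z i + b i z = 2 * c := by
    intro i
    have h1 := hex z i i z
    have h2 := hdiag i z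
    linarith
  refine ⟨fun i => min 1 (2 * c) - 2 * (c - b i z), fun j => 2 * b z j - min 1 (2 * c),
    fun i => ?_, fun j => ?_, fun i j => ?_⟩
  · have h1 := hiz i
    have h2 := hsum i
    have h3 := h01 i z
    have h4 := h01 z i
    rcases le_total 1 (2 * c) with h | h
    · rw [min_eq_left h]
      constructor <;> linarith
    · rw [min_eq_right h]
      constructor <;> linarith
  · have h1 := hiz j
    have h2 := hsum j
    have h3 := h01 j z
    have h4 := h01 z j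
    rcases le_total 1 (2 * c) with h | h
    · rw [min_eq_left h]
      constructor <;> linarith
    · rw [min_eq_right h]
      constructor <;> linarith
  · have h1 := hex i j z z
    show min 1 (2 * c) - 2 * (c - b i z) + (2 * b z j - min 1 (2 * c)) = 2 * b i j
    linarith

theorem gg_onto (hn : 2 ≤ n) : gg hn '' EE n = Forms (CC n) := by
  apply Subset.antisymm
  · rintro _ ⟨ω, hω, rfl⟩
    exact gg_mem hn hω
  intro η hη
  obtain ⟨u, v, hu, hv, huv⟩ := exists_uv hn hη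
  set ω : TT n → ℝ := fun x => ∑ i, u i * x.1 (Sum.inl i) + ∑ j, v j * x.1 (Sum.inr j) with hω
  have hval : ∀ (x : Fin n ⊕ Fin n → ℝ) (hx : x ∈ DD n),
      ω ⟨x, DD_subset hx⟩ = η ⟨ff x, ff_mem hn hx⟩ := by
    intro x hx
    have h1 : (⟨ff x, ff_mem hn hx⟩ : CC n) = ⟨∑ p : Fin n × Fin n,
        (4 * x (Sum.inl p.1) * x (Sum.inr p.2)) • gen p.1 p.2, by
          rw [ff_eq_sum hx]; exact ff_mem hn hx⟩ := Subtype.ext (ff_eq_sum hx).symm
    rw [h1]
    have h2 := forms_map_sum (convex_convexHull ℝ (gens n)) hη Finset.univ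
      (fun p : Fin n × Fin n => 4 * x (Sum.inl p.1) * x (Sum.inr p.2))
      (fun p => ⟨gen p.1 p.2, gen_mem hn p.1 p.2⟩)
      (fun p _ => mul_nonneg (mul_nonneg (by norm_num) (hx.1 _)) (hx.1 _)) (weights_sum hx)
      (by
        show ∑ p : Fin n × Fin n, (4 * x (Sum.inl p.1) * x (Sum.inr p.2)) • gen p.1 p.2 ∈ CC n
        rw [ff_eq_sum hx]
        exact ff_mem hn hx)
    refine Eq.trans ?_ h2.symm
    show ω ⟨x, DD_subset hx⟩ = ∑ p : Fin n × Fin n, 4 * x (Sum.inl p.1) * x (Sum.inr p.2) *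
        η ⟨gen p.1 p.2, gen_mem hn p.1 p.2⟩
    have h3 : ∀ p : Fin n × Fin n, 4 * x (Sum.inl p.1) * x (Sum.inr p.2) *
        η ⟨gen p.1 p.2, gen_mem hn p.1 p.2⟩ =
        2 * (u p.1 * x (Sum.inl p.1)) * x (Sum.inr p.2) +
        2 * x (Sum.inl p.1) * (v p.2 * x (Sum.inr p.2)) := by
      intro p
      have := huv p.1 p.2
      have h4 : η ⟨gen p.1 p.2, gen_mem hn p.1 p.2⟩ = (u p.1 + v p.2) / 2 := by linarith
      rw [h4]
      ring
    rw [Finset.sum_congr rfl (fun p _ => h3 p)]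
    simp only [Finset.sum_add_distrib, Fintype.sum_prod_type, ← Finset.mul_sum,
      ← Finset.sum_mul, hx.2.1, hx.2.2]
    simp only [hω]
    ring
  refine ⟨ω, ⟨⟨fun a => ?_, ?_⟩, ?_⟩, ?_⟩
  · have ha0 := a.2.1
    have ha1 := a.2.2
    rw [Fintype.sum_sum_type] at ha1
    constructor
    · apply add_nonneg
      · exact Finset.sum_nonneg (fun i _ => mul_nonneg (hu i).1 (ha0 _))
      · exact Finset.sum_nonneg (fun j _ => mul_nonneg (hv j).1 (ha0 _))
    · rw [← ha1]
      apply add_le_add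
      · exact Finset.sum_le_sum (fun i _ => mul_le_of_le_one_left (ha0 _) (hu i).2)
      · exact Finset.sum_le_sum (fun j _ => mul_le_of_le_one_left (ha0 _) (hv j).2)
  · intro a b t _ _ h
    simp only [hω, Pi.add_apply, Pi.smul_apply, smul_eq_mul, mul_add, Finset.sum_add_distrib,
      Finset.mul_sum]
    have e : ∀ (w y : ℝ) (s : ℝ), w * (s * y) = s * (w * y) := fun w y s => by ring
    simp only [e]
    ring
  · intro x y hx hy hxy
    rw [hval x hx, hval y hy]
    congr 1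
    exact Subtype.ext hxy
  · ext x
    show ω ⟨sec hn x, _⟩ = η x
    rw [hval _ (sec_mem hn x)]
    congr 1
    exact Subtype.ext (ff_sec hn x)

theorem isRefinement (hn : 2 ≤ n) : IsRefinement (fP hn) (gP hn) where
  onto_f := ff_onto hn
  onto_g := gg_onto hn
  compat _ hω _ ha := gg_compat hn hω ha

/-! ### No factorisation -/

theorem no_onto {F : Type*} [AddCommGroup F] [Module ℝ F] [FiniteDimensional ℝ F] {T : Set F}
    {m : ℕ} {V₀ : Type*} [AddCommGroup V₀] [Module ℝ V₀] {e : Fin m → V₀}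
    (he : AffineIndependent ℝ e) (hm : Module.finrank ℝ F + 1 < m)
    (φ : PartialAffine T (convexHull ℝ (range e))) : ¬ φ.IsOnto := by
  intro hφ
  have hex : ∀ i, ∃ x, x ∈ φ.dom ∧ φ.toFun x = e i := by
    intro i
    have : e i ∈ φ.toFun '' φ.dom := by
      rw [show φ.toFun '' φ.dom = _ from hφ]
      exact subset_convexHull ℝ _ (mem_range_self i)
    obtain ⟨x, hx, hx'⟩ := this
    exact ⟨x, hx, hx'⟩
  choose x hx hx' using hex
  have hdep : ¬ AffineIndependent ℝ x := by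
    intro h
    have h1 := h.card_le_finrank_succ
    rw [Fintype.card_fin] at h1
    have h2 := Submodule.finrank_le (vectorSpan ℝ (range x))
    omega
  obtain ⟨I, y, hyI, hyJ⟩ := Convex.radon_partition hdep
  have key : ∀ J : Set (Fin m), y ∈ convexHull ℝ (x '' J) →
      φ.toFun y ∈ convexHull ℝ (e '' J) := by
    intro J hy
    have hconv : Convex ℝ {z | z ∈ φ.dom ∧ φ.toFun z ∈ convexHull ℝ (e '' J)} := by
      rintro a ⟨ha, ha'⟩ b ⟨hb, hb'⟩ s t hs ht hst
      have ht' : t = 1 - s := by linarith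
      subst ht'
      refine ⟨φ.combo_mem a ha b hb s hs (by linarith), ?_⟩
      rw [φ.map_combo a ha b hb s hs (by linarith)]
      exact convex_convexHull ℝ _ ha' hb' hs ht hst
    refine (convexHull_min ?_ hconv hy).2
    rintro _ ⟨i, hi, rfl⟩
    refine ⟨hx i, ?_⟩
    rw [hx' i]
    exact subset_convexHull ℝ _ ⟨i, hi, rfl⟩
  have h1 := convexHull_subset_affineSpan _ (key I hyI)
  have h2 := convexHull_subset_affineSpan _ (key Iᶜ hyJ)
  exact Set.disjoint_left.1 (he.affineSpan_disjoint_of_disjoint (disjoint_compl_right (a := I)))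
    h1 h2

theorem projection_m (P : ProjectionSimplex (CC n)) : P.m = n * (n - 1) := by
  rw [← ncard_gens, ← extremePoints_CC, ← P.range_c, ← image_univ,
    ncard_image_of_injective _ P.c_injective, ncard_univ, Nat.card_eq_fintype_card,
    Fintype.card_fin]

theorem not_factors (hn : 4 ≤ n) (P : ProjectionSimplex (CC n)) :
    ¬ Factors (fP (by omega : 2 ≤ n)) (gP (by omega : 2 ≤ n)) P := by
  rintro ⟨g₀, f', g', -, h, -, -⟩
  refine no_onto P.indep ?_ f' h.onto_f
  rw [projection_m P]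
  have : Module.finrank ℝ (Fin n ⊕ Fin n → ℝ) = 2 * n := by
    rw [Module.finrank_fintype_fun_eq_card]
    simp
    ring
  rw [this]
  obtain ⟨k, rfl⟩ : ∃ k, n = k + 4 := ⟨n - 4, by omega⟩
  have h6 : k + 4 - 1 = k + 3 := by omega
  rw [h6]
  nlinarith

/-- Every polytope has a projection simplex (sanity check). -/
theorem exists_projectionSimplex : Nonempty (ProjectionSimplex (CC n)) := by
  have hfin : ((CC n).extremePoints ℝ).Finite := isPolytope_CC.2.2
  obtain ⟨m, c, hc, hr⟩ : ∃ (m : ℕ) (c : Fin m → (Fin n → ℝ)), Function.Injective c ∧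
      range c = (CC n).extremePoints ℝ := by
    obtain ⟨m, c, hc⟩ := hfin.fin_param
    exact ⟨m, c, hc.1, hc.2⟩
  have hmem : ∀ i, c i ∈ CC n := fun i => by
    have : c i ∈ (CC n).extremePoints ℝ := hr ▸ mem_range_self i
    exact this.1
  have hind : AffineIndependent ℝ (fun i : Fin m => (Pi.single i 1 : Fin m → ℝ)) := by
    have hfun : (fun i : Fin m => (Pi.single i 1 : Fin m → ℝ)) = ⇑(Pi.basisFun ℝ (Fin m)) := by
      ext i
      simp
    rw [hfun]
    exact (Pi.basisFun ℝ (Fin m)).linearIndependent.affineIndependent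
  refine ⟨{ m := m, c := c, c_injective := hc, range_c := hr, V₀ := Fin m → ℝ,
            e := fun i => Pi.single i 1, indep := hind, total := rfl, map_vertex := ?_,
            p := { dom := convexHull ℝ (range fun i : Fin m => (Pi.single i 1 : Fin m → ℝ))
                   toFun := fun x => ∑ i, x i • c i
                   dom_subset := Subset.rfl
                   maps_to := ?_
                   combo_mem := ?_
                   map_combo := ?_ } }⟩
  · intro a ha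
    rw [convexHull_rangle_single_eq_stdSimplex] at ha
    exact (convex_convexHull ℝ (gens n)).sum_mem (fun i _ => ha.1 i) ha.2 (fun i _ => hmem i)
  · intro a ha b hb t h0 h1
    exact convex_convexHull ℝ _ ha hb h0 (by linarith) (by ring)
  · intro a _ b _ t _ _
    simp only [Pi.add_apply, Pi.smul_apply, smul_eq_mul, add_smul, Finset.sum_add_distrib,
      Finset.smul_sum, smul_smul]
  · intro i
    simp [Pi.single_apply]

/-- For every `n ≥ 4` there is a non-simplicial statistical model whose polytope `C` has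
`n(n-1)` extreme points, with a simplicial refinement by a simplex of dimension `2n-1`, which is
less than `n(n-1)-1`, and this refinement does not factor through the projection simplex. -/
theorem result (n : ℕ) (hn : 4 ≤ n) :
    ∃ (C : Set (Fin n → ℝ)) (T : Set (Fin n ⊕ Fin n → ℝ)) (f : PartialAffine T C)
      (g : PartialAffine (Forms T) (Forms C)),
      IsPolytope C ∧ (∀ d, ¬ IsSimplex d C) ∧ (C.extremePoints ℝ).ncard = n * (n - 1) ∧
      IsSimplex (2 * n - 1) T ∧ 2 * n - 1 < n * (n - 1) - 1 ∧ IsRefinement f g ∧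
      Nonempty (ProjectionSimplex C) ∧ ∀ P : ProjectionSimplex C, ¬ Factors f g P := by
  refine ⟨CC n, TT n, fP (by omega), gP (by omega), isPolytope_CC, not_isSimplex_CC hn, ?_,
    isSimplex_stdSimplex ?_, ?_, isRefinement (by omega), exists_projectionSimplex,
    not_factors hn⟩
  · rw [extremePoints_CC, ncard_gens]
  · rw [Fintype.card_sum, Fintype.card_fin]
    omega
  · obtain ⟨k, rfl⟩ : ∃ k, n = k + 4 := ⟨n - 4, by omega⟩
    have h6 : k + 4 - 1 = k + 3 := by omega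
    rw [h6]
    have h7 : (k + 4) * (k + 3) = k * k + 7 * k + 12 := by ring
    rw [h7]
    have h8 : 0 ≤ k * k := Nat.zero_le _
    omega

end Pool.Agent.Results.MP_b12348_gt.NoFactorisation
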